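import Pool.Agent.Helper50.VD.Num

namespace VD

theorem chkAx : axOk 6472 = true := by decide +kernel

theorem chkLast : loOk 6475 5 = true := by decide +kernel

end VD
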