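import Pool.Agent.Helper50.VD.Num

namespace VD

theorem chkL1 : loC
  [(352,3887), (652,3869), (833,3853), (928,3843), (1004,3834), (1097,3822), (1204,3807),
   (1320,3789), (1434,3770), (1539,3751), (1627,3734), (1695,3720), (1748,3709)] = true := by
  decide +kernel

theorem chkL2 : loC
  [(1748,3709), (1789,3700), (1824,3692), (1868,3682), (1919,3670), (1976,3656), (2040,3640),
   (2109,3622), (2179,3603), (2247,3584), (2314,3565), (2374,3547), (2430,3530)] = true := by
  decide +kernel

theorem chkL3 : loC
  [(2430,3530), (2479,3515), (2523,3501), (2560,3489), (2590,3479), (2617,3470), (2638,3463),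
   (2661,3455), (2687,3446), (2716,3436), (2749,3424), (2785,3411), (2826,3396)] = true := by
  decide +kernel

theorem chkL4 : loC
  [(2826,3396), (2869,3380), (2914,3363), (2960,3345), (3009,3326), (3056,3307), (3103,3288),
   (3148,3269), (3191,3251), (3231,3234), (3268,3218), (3302,3203), (3331,3190)] = true := by
  decide +kernel

theorem chkL5 : loC
  [(3331,3190), (3357,3178), (3379,3168), (3399,3159), (3416,3151), (3431,3144), (3448,3136),
   (3467,3127), (3488,3117), (3513,3105), (3539,3092), (3568,3078), (3598,3063)] = true := by
  decide +kernel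

end VD
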