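import Pool.Agent.Helper50.VD.Num

namespace VD

theorem chkL6 : loC
  [(3598,3063), (3630,3047), (3663,3030), (3698,3012), (3734,2993), (3770,2974), (3806,2955),
   (3843,2935), (3877,2916), (3912,2897), (3944,2879), (3974,2862), (4001,2846)] = true := by
  decide +kernel

theorem chkL7 : loC
  [(4001,2846), (4027,2831), (4051,2817), (4073,2804), (4092,2793), (4110,2782), (4125,2773),
   (4138,2765), (4151,2757), (4164,2749), (4179,2740), (4197,2729), (4216,2717)] = true := by
  decide +kernel

theorem chkL8 : loC
  [(4216,2717), (4236,2704), (4258,2690), (4282,2675), (4306,2659), (4332,2642), (4360,2624),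
   (4388,2605), (4416,2586), (4444,2567), (4472,2548), (4501,2528), (4528,2509)] = true := by
  decide +kernel

theorem chkL9 : loC
  [(4528,2509), (4555,2490), (4580,2472), (4605,2454), (4628,2437), (4650,2421), (4671,2406),
   (4689,2392), (4705,2380), (4720,2369), (4734,2358), (4746,2349), (4757,2341)] = true := by
  decide +kernel

theorem chkL10 : loC
  [(4757,2341), (4767,2333), (4776,2326), (4785,2319), (4795,2311), (4807,2302), (4819,2292),
   (4833,2281), (4848,2269), (4865,2256), (4883,2241), (4901,2226), (4921,2210)] = true := by
  decide +kernel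

end VD
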