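import Pool.Agent.Helper50.VD.Num

namespace VD

theorem chkL11 : loC
  [(4921,2210), (4941,2193), (4963,2175), (4986,2156), (5009,2136), (5032,2116), (5055,2096),
   (5077,2077), (5100,2057), (5122,2037), (5143,2018), (5163,2000), (5182,1983)] = true := by
  decide +kernel

theorem chkL12 : loC
  [(5182,1983), (5200,1966), (5217,1951), (5233,1936), (5247,1922), (5260,1910), (5272,1899),
   (5283,1888), (5292,1879), (5301,1871), (5309,1863), (5317,1855), (5326,1846)] = true := by
  decide +kernel

theorem chkL13 : loC
  [(5326,1846), (5335,1837), (5346,1827), (5358,1815), (5371,1802), (5384,1788), (5399,1773),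
   (5415,1757), (5431,1740), (5448,1722), (5466,1704), (5484,1684), (5502,1665)] = true := by
  decide +kernel

theorem chkL14 : loC
  [(5502,1665), (5521,1645), (5540,1624), (5558,1604), (5576,1584), (5593,1565), (5610,1546),
   (5626,1528), (5642,1510), (5656,1493), (5669,1478), (5681,1464), (5693,1450)] = true := by
  decide +kernel

theorem chkL15 : loC
  [(5693,1450), (5704,1437), (5714,1425), (5722,1415), (5729,1406), (5736,1398), (5742,1391),
   (5748,1383), (5755,1375), (5763,1365), (5772,1354), (5781,1342), (5791,1329)] = true := by
  decide +kernel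

end VD
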