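import Pool.Agent.Helper50.VD.Num

namespace VD

theorem chkL21 : loC
  [(6362,380), (6371,358), (6380,336), (6389,313), (6397,291), (6404,271), (6410,254),
   (6415,239), (6420,226), (6424,214), (6427,204), (6430,196), (6433,187)] = true := by
  decide +kernel

theorem chkL22 : loC
  [(6433,187), (6436,175), (6440,162), (6445,146), (6450,125), (6456,104), (6462,79),
   (6467,54), (6471,34), (6474,17), (6475,5)] = true := by
  decide +kernel

end VD
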