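import Pool.Agent.Helper50.VD.Num

namespace VD

theorem chkU1 : upC
  [(0,3867), (373,3859), (522,3851), (672,3840), (877,3821), (1006,3806), (1097,3795),
   (1164,3785), (1226,3776), (1281,3768), (1329,3760), (1378,3752), (1427,3744)] = true := by
  decide +kernel

theorem chkU2 : upC
  [(1427,3744), (1476,3735), (1531,3725), (1592,3713), (1666,3699), (1751,3681), (1826,3664),
   (1888,3650), (1938,3638), (1982,3627), (2021,3617), (2058,3608), (2090,3600)] = true := by
  decide +kernel

theorem chkU3 : upC
  [(2090,3600), (2119,3592), (2148,3584), (2177,3576), (2206,3568), (2235,3560), (2264,3552),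
   (2293,3544), (2321,3535), (2354,3526), (2387,3516), (2423,3505), (2462,3493)] = true := by
  decide +kernel

theorem chkU4 : upC
  [(2462,3493), (2506,3479), (2556,3463), (2614,3444), (2664,3427), (2707,3412), (2744,3398),
   (2779,3386), (2809,3375), (2837,3365), (2862,3355), (2887,3346), (2909,3337)] = true := by
  decide +kernel

theorem chkU5 : upC
  [(2909,3337), (2932,3329), (2952,3321), (2972,3313), (2992,3305), (3012,3297), (3032,3289),
   (3052,3281), (3072,3273), (3092,3265), (3112,3257), (3132,3248), (3154,3239)] = true := by
  decide +kernel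

end VD
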