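import Pool.Agent.Helper50.VD.Num

namespace VD

theorem chkU6 : upC
  [(3154,3239), (3177,3229), (3202,3219), (3227,3208), (3254,3196), (3284,3183), (3317,3169),
   (3352,3153), (3392,3135), (3431,3116), (3467,3099), (3499,3084), (3527,3070)] = true := by
  decide +kernel

theorem chkU7 : upC
  [(3527,3070), (3553,3058), (3575,3047), (3596,3036), (3616,3026), (3635,3017), (3652,3008),
   (3669,2999), (3686,2991), (3701,2983), (3716,2975), (3731,2967), (3746,2959)] = true := by
  decide +kernel

theorem chkU8 : upC
  [(3746,2959), (3760,2952), (3774,2944), (3789,2936), (3803,2929), (3817,2921), (3832,2913),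
   (3847,2905), (3861,2897), (3876,2889), (3891,2881), (3906,2872), (3923,2863)] = true := by
  decide +kernel

theorem chkU9 : upC
  [(3923,2863), (3940,2853), (3959,2843), (3977,2832), (3998,2820), (4020,2808), (4043,2794),
   (4069,2779), (4097,2762), (4129,2743), (4158,2725), (4184,2709), (4207,2695)] = true := by
  decide +kernel

theorem chkU10 : upC
  [(4207,2695), (4228,2681), (4248,2669), (4266,2657), (4283,2646), (4299,2636), (4314,2626),
   (4328,2617), (4342,2608), (4355,2599), (4368,2591), (4380,2583), (4391,2575)] = true := by
  decide +kernel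

end VD
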