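import Pool.Agent.Helper50.VD.Num

namespace VD

theorem chkU11 : upC
  [(4391,2575), (4403,2567), (4415,2559), (4426,2552), (4436,2545), (4447,2537), (4458,2530),
   (4469,2522), (4480,2515), (4490,2508), (4501,2500), (4512,2492), (4524,2484)] = true := by
  decide +kernel

theorem chkU12 : upC
  [(4524,2484), (4536,2475), (4549,2466), (4562,2457), (4575,2448), (4588,2438), (4603,2428),
   (4617,2417), (4633,2406), (4649,2394), (4667,2381), (4686,2367), (4706,2352)] = true := by
  decide +kernel

theorem chkU13 : upC
  [(4706,2352), (4728,2335), (4753,2316), (4778,2296), (4801,2279), (4821,2263), (4839,2248),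
   (4856,2235), (4871,2223), (4885,2211), (4899,2200), (4912,2189), (4924,2179)] = true := by
  decide +kernel

theorem chkU14 : upC
  [(4924,2179), (4936,2169), (4947,2160), (4958,2151), (4968,2143), (4977,2135), (4987,2127),
   (4996,2119), (5005,2111), (5014,2104), (5022,2097), (5030,2090), (5038,2083)] = true := by
  decide +kernel

theorem chkU15 : upC
  [(5038,2083), (5046,2076), (5055,2068), (5064,2060), (5073,2052), (5082,2044), (5091,2037),
   (5099,2029), (5109,2021), (5118,2013), (5127,2005), (5136,1996), (5147,1987)] = true := by
  decide +kernel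

end VD
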