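import Pool.Agent.Helper50.VD.Num

namespace VD

theorem chkU16 : upC
  [(5147,1987), (5157,1977), (5169,1967), (5180,1956), (5193,1945), (5206,1932), (5221,1919),
   (5235,1905), (5252,1889), (5270,1872), (5290,1853), (5310,1834), (5327,1817)] = true := by
  decide +kernel

theorem chkU17 : upC
  [(5327,1817), (5343,1801), (5358,1786), (5372,1772), (5384,1760), (5395,1749), (5406,1737),
   (5417,1726), (5427,1716), (5436,1706), (5445,1697), (5453,1689), (5461,1680)] = true := by
  decide +kernel

theorem chkU18 : upC
  [(5461,1680), (5469,1672), (5476,1664), (5484,1656), (5491,1648), (5498,1641), (5505,1633),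
   (5512,1626), (5519,1618), (5526,1611), (5532,1604), (5539,1596), (5546,1589)] = true := by
  decide +kernel

theorem chkU19 : upC
  [(5546,1589), (5553,1581), (5560,1573), (5567,1566), (5574,1558), (5581,1550), (5589,1541),
   (5597,1532), (5605,1523), (5613,1514), (5622,1504), (5631,1493), (5641,1482)] = true := by
  decide +kernel

theorem chkU20 : upC
  [(5641,1482), (5651,1470), (5662,1458), (5673,1445), (5685,1430), (5699,1414), (5714,1396),
   (5730,1376), (5746,1357), (5760,1339), (5773,1323), (5785,1308), (5795,1295)] = true := by
  decide +kernel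

end VD
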