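import Pool.Agent.Helper50.VD.Num

namespace VD

theorem chkU21 : upC
  [(5795,1295), (5805,1282), (5814,1271), (5822,1260), (5830,1250), (5838,1239), (5845,1230),
   (5852,1221), (5859,1212), (5865,1204), (5871,1196), (5877,1187), (5883,1179)] = true := by
  decide +kernel

theorem chkU22 : upC
  [(5883,1179), (5889,1171), (5895,1163), (5901,1155), (5906,1148), (5911,1141), (5916,1134),
   (5922,1126), (5927,1119), (5932,1112), (5938,1103), (5944,1095), (5950,1086)] = true := by
  decide +kernel

theorem chkU23 : upC
  [(5950,1086), (5956,1078), (5962,1069), (5969,1059), (5976,1049), (5983,1039), (5990,1029),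
   (5998,1017), (6006,1005), (6015,992), (6024,978), (6035,962), (6046,945)] = true := by
  decide +kernel

theorem chkU24 : upC
  [(6046,945), (6059,925), (6072,904), (6083,887), (6093,870), (6102,856), (6110,843),
   (6117,831), (6124,819), (6130,809), (6136,799), (6142,789), (6147,780)] = true := by
  decide +kernel

theorem chkU25 : upC
  [(6147,780), (6152,772), (6157,763), (6162,754), (6167,746), (6171,738), (6175,731),
   (6179,724), (6183,717), (6187,710), (6191,703), (6195,696), (6199,688)] = true := by
  decide +kernel

end VD
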