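import Pool.Agent.Helper50.VD.Num

namespace VD

theorem chkU26 : upC
  [(6199,688), (6203,681), (6207,674), (6211,666), (6216,657), (6221,648), (6226,638),
   (6231,629), (6236,619), (6242,608), (6248,596), (6254,585), (6261,571)] = true := by
  decide +kernel

theorem chkU27 : upC
  [(6261,571), (6268,557), (6276,541), (6285,522), (6295,501), (6304,482), (6311,467),
   (6317,454), (6323,440), (6328,429), (6333,417), (6338,406), (6342,397)] = true := by
  decide +kernel

theorem chkU28 : upC
  [(6342,397), (6346,387), (6350,378), (6353,371), (6356,363), (6359,356), (6362,349),
   (6365,341), (6368,334), (6371,326), (6374,319), (6377,311), (6380,303)] = true := by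
  decide +kernel

theorem chkU29 : upC
  [(6380,303), (6383,296), (6386,288), (6389,280), (6393,269), (6397,259), (6401,248),
   (6406,234), (6411,220), (6417,202), (6424,181), (6431,159), (6436,142)] = true := by
  decide +kernel

theorem chkU30 : upC
  [(6436,142), (6440,128), (6444,114), (6447,103), (6450,92), (6452,84), (6454,76), (6456,68),
   (6458,60), (6460,51), (6462,43), (6464,34), (6466,24)] = true := by
  decide +kernel

end VD
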