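import Pool.Agent.Helper50.VD.Num

namespace VD

theorem chkU31 : upC
  [(6466,24), (6469,10), (6472,0)] = true := by
  decide +kernel

end VD
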