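import Pool.Agent.Helper50.VD.Sec

namespace VD

theorem chkT_7700 : chkT 7700 7244 = true := by decide +kernel

theorem chkT_7244 : chkT 7244 6694 = true := by decide +kernel

theorem chkT_6694 : chkT 6694 6048 = true := by decide +kernel

theorem chkT_6048 : chkT 6048 5328 = true := by decide +kernel

theorem chkT_5328 : chkT 5328 4594 = true := by decide +kernel

end VD
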