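import Pool.Agent.Helper50.VD.Sec

namespace VD

theorem chkT_4594 : chkT 4594 3928 = true := by decide +kernel

theorem chkT_3928 : chkT 3928 3401 = true := by decide +kernel

theorem chkT_3401 : chkT 3401 3062 = true := by decide +kernel

theorem chkT_3062 : chkT 3062 2874 = true := by decide +kernel

theorem chkT_2874 : chkT 2874 2813 = true := by decide +kernel

end VD
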