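import Pool.Agent.Helper50.VD.Row

namespace VD

theorem chkW_7700 : chkW 7700 7519 = true := by decide +kernel

theorem chkW_7519 : chkW 7519 7317 = true := by decide +kernel

theorem chkW_7317 : chkW 7317 7098 = true := by decide +kernel

theorem chkW_7098 : chkW 7098 6862 = true := by decide +kernel

theorem chkW_6862 : chkW 6862 6611 = true := by decide +kernel

theorem chkW_6611 : chkW 6611 6348 = true := by decide +kernel

theorem chkW_6348 : chkW 6348 6079 = true := by decide +kernel

end VD
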