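import Pool.Agent.Helper50.VD.Row

namespace VD

theorem chkW_6079 : chkW 6079 5809 = true := by decide +kernel

theorem chkW_5809 : chkW 5809 5541 = true := by decide +kernel

theorem chkW_5541 : chkW 5541 5279 = true := by decide +kernel

theorem chkW_5279 : chkW 5279 5028 = true := by decide +kernel

theorem chkW_5028 : chkW 5028 4792 = true := by decide +kernel

theorem chkW_4792 : chkW 4792 4575 = true := by decide +kernel

theorem chkW_4575 : chkW 4575 4377 = true := by decide +kernel

end VD
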