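import Pool.Agent.Helper50.VD.Row

namespace VD

theorem chkW_4377 : chkW 4377 4197 = true := by decide +kernel

theorem chkW_4197 : chkW 4197 4038 = true := by decide +kernel

theorem chkW_4038 : chkW 4038 3897 = true := by decide +kernel

theorem chkW_3897 : chkW 3897 3774 = true := by decide +kernel

theorem chkW_3774 : chkW 3774 3701 = true := by decide +kernel

end VD
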