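import Pool.Agent.Helper50.VD.Sec

namespace VD

def JJ : List ℕ :=
  [143537423564695678032875846236056280,
   146858121542190930232684674582056840,
   150168723390514181340404849822155350,
   153454380851838025705517554283830130,
   156734425366157243440600900922028710,
   160001753934514957171184164618005760,
   163244309360051229963235247464199210,
   166482745807306263962789085724067080,
   169690114735812639107657177815031730,
   172888440743069407281550028184401990,
   176062789006949635760154303802568390,
   179219378657988871171085747654472220,
   182355054303396399168225958185984470,
   185469272568665915782416439686112740,
   188561237958794016284128705849477080,
   191633428164511258788241645475037920,
   194677270322967033715388521767189510,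
   197708670581463062163691912586097140,
   200700578338162752690835601694415520,
   203686712489002254745452191767400690,
   206629928245351937905379529931846760,
   209558974251935730786158228733088400,
   212466878846460643000058435110784870,
   215336402321201629739064550494004940,
   218195901626246853363333705781737510,
   221027977746318779059195992385068610,
   223824611701129995094568573092766490,
   226609258377763358308995830877086160,
   229369404539646640878425788702742050,
   232088448645873727233019474694099270]

theorem chkJ : chkC JJ = true := by decide +kernel

theorem chkJ3 : chk3 JJ = true := by decide +kernel

theorem chkJ4 : chk4 JJ = true := by decide +kernel

end VD
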