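import Pool.Agent.Helper50.VD.Num

namespace VD

theorem chkL16 : loC
  [(5791,1329), (5802,1315), (5814,1300), (5826,1284), (5839,1267), (5853,1249), (5867,1230),
   (5882,1210), (5897,1190), (5912,1169), (5927,1148), (5941,1128), (5956,1108)] = true := by
  decide +kernel

theorem chkL17 : loC
  [(5956,1108), (5969,1088), (5982,1070), (5994,1052), (6006,1035), (6017,1019), (6027,1003),
   (6036,990), (6044,977), (6051,966), (6057,957), (6063,948), (6068,940)] = true := by
  decide +kernel

theorem chkL18 : loC
  [(6068,940), (6073,933), (6078,924), (6084,915), (6091,904), (6099,891), (6107,877),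
   (6116,863), (6126,846), (6137,828), (6148,809), (6159,789), (6171,769)] = true := by
  decide +kernel

theorem chkL19 : loC
  [(6171,769), (6183,747), (6195,726), (6207,704), (6218,683), (6229,663), (6240,643),
   (6250,623), (6259,605), (6267,589), (6274,575), (6281,562), (6286,550)] = true := by
  decide +kernel

theorem chkL20 : loC
  [(6286,550), (6291,541), (6295,532), (6299,524), (6303,515), (6308,505), (6314,492),
   (6321,477), (6328,460), (6336,442), (6344,423), (6353,403), (6362,380)] = true := by
  decide +kernel

end VD
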